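import Mathlib

set_option autoImplicit false

namespace Pool.Agent.R93.Theta

open Finset

/-- Positive semidefinite real kernels on a finite type. -/
def PSD {ι : Type*} [Fintype ι] (X : ι → ι → ℝ) : Prop :=
  (∀ i j, X i j = X j i) ∧ ∀ c : ι → ℝ, 0 ≤ ∑ i, ∑ j, c i * c j * X i j

variable {ι κ : Type*} [Fintype ι] [Fintype κ]

theorem PSD.factor {X : ι → ι → ℝ} (h : PSD X) :
    ∃ (m : ℕ) (b : Fin m → ι → ℝ), ∀ i j, X i j = ∑ k, b k i * b k j := by
  classical
  have hm : (Matrix.of X).PosSemidef := by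
    refine Matrix.PosSemidef.of_dotProduct_mulVec_nonneg ?_ ?_
    · ext i j
      simp [Matrix.conjTranspose_apply, h.1 i j]
    · intro x
      have e : star x ⬝ᵥ ((Matrix.of X).mulVec x) = ∑ i, ∑ j, x i * x j * X i j := by
        simp only [dotProduct, Matrix.mulVec, Pi.star_apply, star_trivial, Finset.mul_sum,
          Matrix.of_apply]
        refine Finset.sum_congr rfl fun i _ => Finset.sum_congr rfl fun j _ => ?_
        ring
      rw [e]
      exact h.2 x
  obtain ⟨m, v, hv⟩ := Matrix.posSemidef_iff_eq_sum_vecMulVec.mp hm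
  refine ⟨m, v, fun i j => ?_⟩
  have := congrFun (congrFun hv i) j
  simpa [Matrix.sum_apply, Matrix.vecMulVec_apply] using this

theorem psd_of_factor {K : Type*} [Fintype K] {X : ι → ι → ℝ} (b : K → ι → ℝ)
    (hb : ∀ i j, X i j = ∑ k, b k i * b k j) : PSD X := by
  refine ⟨fun i j => ?_, fun c => ?_⟩
  · rw [hb, hb]
    exact Finset.sum_congr rfl fun k _ => mul_comm _ _
  · have : ∑ i, ∑ j, c i * c j * X i j = ∑ k, (∑ i, c i * b k i) ^ 2 := by
      have h1 : ∀ k, (∑ i, c i * b k i) ^ 2 = ∑ i, ∑ j, c i * c j * (b k i * b k j) := by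
        intro k
        rw [sq, Finset.sum_mul_sum]
        refine Finset.sum_congr rfl fun i _ => Finset.sum_congr rfl fun j _ => ?_
        ring
      simp only [h1]
      conv_rhs => rw [Finset.sum_comm]
      refine Finset.sum_congr rfl fun i _ => ?_
      conv_rhs => rw [Finset.sum_comm]
      refine Finset.sum_congr rfl fun j _ => ?_
      rw [hb, Finset.mul_sum]
    rw [this]
    exact Finset.sum_nonneg fun k _ => sq_nonneg _

theorem PSD.add {X Y : ι → ι → ℝ} (hX : PSD X) (hY : PSD Y) : PSD (fun i j => X i j + Y i j) := by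
  refine ⟨fun i j => by show X i j + Y i j = X j i + Y j i; rw [hX.1 i j, hY.1 i j], fun c => ?_⟩
  have : ∑ i, ∑ j, c i * c j * (X i j + Y i j) =
      ∑ i, ∑ j, c i * c j * X i j + ∑ i, ∑ j, c i * c j * Y i j := by
    simp only [mul_add, Finset.sum_add_distrib]
  rw [this]
  exact add_nonneg (hX.2 c) (hY.2 c)

theorem PSD.smul {X : ι → ι → ℝ} (hX : PSD X) {a : ℝ} (ha : 0 ≤ a) :
    PSD (fun i j => a * X i j) := by
  refine ⟨fun i j => by show a * X i j = a * X j i; rw [hX.1 i j], fun c => ?_⟩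
  have : ∑ i, ∑ j, c i * c j * (a * X i j) = a * ∑ i, ∑ j, c i * c j * X i j := by
    simp only [Finset.mul_sum]
    refine Finset.sum_congr rfl fun i _ => Finset.sum_congr rfl fun j _ => ?_
    ring
  rw [this]
  exact mul_nonneg ha (hX.2 c)

theorem PSD.comp {X : ι → ι → ℝ} (hX : PSD X) (f : κ → ι) : PSD (fun i j => X (f i) (f j)) := by
  obtain ⟨m, b, hb⟩ := hX.factor
  exact psd_of_factor (fun k i => b k (f i)) fun i j => hb _ _

theorem PSD.mul {X Y : ι → ι → ℝ} (hX : PSD X) (hY : PSD Y) :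
    PSD (fun i j => X i j * Y i j) := by
  obtain ⟨m, b, hb⟩ := hX.factor
  obtain ⟨m', b', hb'⟩ := hY.factor
  refine psd_of_factor (K := Fin m × Fin m') (fun k i => b k.1 i * b' k.2 i) fun i j => ?_
  rw [hb, hb', Finset.sum_mul_sum, ← Finset.sum_product']
  refine Finset.sum_congr (by simp) fun k _ => ?_
  ring

theorem PSD.diag_nonneg [DecidableEq ι] {X : ι → ι → ℝ} (hX : PSD X) (i : ι) : 0 ≤ X i i := by
  obtain ⟨m, b, hb⟩ := hX.factor
  rw [hb]
  exact Finset.sum_nonneg fun k _ => mul_self_nonneg _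

theorem PSD.bound {X : ι → ι → ℝ} (hX : PSD X) (i j : ι) : 2 * |X i j| ≤ X i i + X j j := by
  obtain ⟨m, b, hb⟩ := hX.factor
  rw [hb, hb, hb]
  have h1 : ∑ k, b k i * b k i + ∑ k, b k j * b k j - 2 * ∑ k, b k i * b k j
      = ∑ k, (b k i - b k j) ^ 2 := by
    rw [Finset.mul_sum, ← Finset.sum_add_distrib, ← Finset.sum_sub_distrib]
    exact Finset.sum_congr rfl fun k _ => by ring
  have h2 : ∑ k, b k i * b k i + ∑ k, b k j * b k j + 2 * ∑ k, b k i * b k j
      = ∑ k, (b k i + b k j) ^ 2 := by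
    rw [Finset.mul_sum, ← Finset.sum_add_distrib, ← Finset.sum_add_distrib]
    exact Finset.sum_congr rfl fun k _ => by ring
  have h3 : 0 ≤ ∑ k, (b k i - b k j) ^ 2 := Finset.sum_nonneg fun k _ => sq_nonneg _
  have h4 : 0 ≤ ∑ k, (b k i + b k j) ^ 2 := Finset.sum_nonneg fun k _ => sq_nonneg _
  rcases abs_cases (∑ k, b k i * b k j) with ⟨h, _⟩ | ⟨h, _⟩ <;> rw [h] <;> linarith

theorem PSD.zero_row {X : ι → ι → ℝ} (hX : PSD X) {j : ι} (h0 : X j j = 0) (i : ι) :
    X i j = 0 := by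
  obtain ⟨m, b, hb⟩ := hX.factor
  rw [hb] at h0
  rw [hb]
  have : ∀ k ∈ (Finset.univ : Finset (Fin m)), b k j * b k j = 0 :=
    (Finset.sum_eq_zero_iff_of_nonneg fun k _ => mul_self_nonneg _).1 h0
  refine Finset.sum_eq_zero fun k hk => ?_
  have := mul_self_eq_zero.1 (this k hk)
  rw [this, mul_zero]

/-- The trace pairing of two positive semidefinite kernels is nonnegative. -/
theorem PSD.pair {X Y : ι → ι → ℝ} (hX : PSD X) (hY : PSD Y) :
    0 ≤ ∑ i, ∑ j, X i j * Y i j := by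
  have := (hX.mul hY).2 (fun _ => 1)
  simpa using this

/-- Partial contraction: if `R` is psd on `V` and `Z` on `V × I`, then
`∑_{v,w} R v w Z (v,i) (w,j)` is psd on `I`. -/
theorem PSD.contract {R : κ → κ → ℝ} {Z : κ × ι → κ × ι → ℝ} (hR : PSD R) (hZ : PSD Z) :
    PSD (fun i j => ∑ v, ∑ w, R v w * Z (v, i) (w, j)) := by
  have h := (hR.comp (Prod.fst : κ × ι → κ)).mul hZ
  refine ⟨fun i j => ?_, fun c => ?_⟩
  · show ∑ v, ∑ w, R v w * Z (v, i) (w, j) = ∑ v, ∑ w, R v w * Z (v, j) (w, i)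
    conv_lhs => rw [Finset.sum_comm]
    refine Finset.sum_congr rfl fun v _ => Finset.sum_congr rfl fun w _ => ?_
    rw [hR.1 w v, hZ.1 (w, i) (v, j)]
  · have h2 := h.2 (fun p => c p.2)
    simp only [Fintype.sum_prod_type] at h2
    have e : ∑ i, ∑ j, c i * c j * (∑ v, ∑ w, R v w * Z (v, i) (w, j)) =
        ∑ v, ∑ i, ∑ w, ∑ j, c i * c j * (R v w * Z (v, i) (w, j)) := by
      simp only [Finset.mul_sum]
      calc ∑ i, ∑ j, ∑ v, ∑ w, c i * c j * (R v w * Z (v, i) (w, j))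
          = ∑ i, ∑ v, ∑ j, ∑ w, c i * c j * (R v w * Z (v, i) (w, j)) :=
            Finset.sum_congr rfl fun i _ => Finset.sum_comm
        _ = ∑ v, ∑ i, ∑ j, ∑ w, c i * c j * (R v w * Z (v, i) (w, j)) := Finset.sum_comm
        _ = ∑ v, ∑ i, ∑ w, ∑ j, c i * c j * (R v w * Z (v, i) (w, j)) :=
            Finset.sum_congr rfl fun v _ => Finset.sum_congr rfl fun i _ => Finset.sum_comm
    rw [e]
    exact h2

end Pool.Agent.R93.Theta
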