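import Pool.Agent.R93.Theta.Basic

set_option autoImplicit false

namespace Pool.Agent.R93.Theta

open Finset

variable {V : Type*} [Fintype V]

/-- `Feas G T`: there is a psd kernel with diagonal `T - 1` and value `-1` on the edges of `G`. -/
def Feas (G : SimpleGraph V) (T : ℝ) : Prop :=
  ∃ X : V → V → ℝ, PSD X ∧ (∀ v, X v v = T - 1) ∧ ∀ v w, G.Adj v w → X v w = -1

theorem isClosed_psd : IsClosed {X : V → V → ℝ | PSD X} := by
  have : {X : V → V → ℝ | PSD X} = (⋂ i, ⋂ j, {X : V → V → ℝ | X i j = X j i}) ∩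
      ⋂ c : V → ℝ, {X : V → V → ℝ | 0 ≤ ∑ i, ∑ j, c i * c j * X i j} := by
    ext X
    simp [PSD]
  rw [this]
  refine IsClosed.inter ?_ ?_
  · refine isClosed_iInter fun i => isClosed_iInter fun j => ?_
    exact isClosed_eq (by fun_prop) (by fun_prop)
  · refine isClosed_iInter fun c => ?_
    exact isClosed_le (by fun_prop) (by fun_prop)

theorem psd_delta [DecidableEq V] {a : V → ℝ} (ha : ∀ v, 0 ≤ a v) :
    PSD (fun v w => if v = w then a v else 0) := by
  refine ⟨fun i j => ?_, fun c => ?_⟩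
  · by_cases h : i = j
    · subst h; rfl
    · show (if i = j then a i else 0) = (if j = i then a j else 0)
      rw [if_neg h, if_neg (Ne.symm h)]
  · refine Finset.sum_nonneg fun i _ => ?_
    have : ∑ j, c i * c j * (if i = j then a i else 0) = c i * c i * a i := by
      simp
    rw [this]
    exact mul_nonneg (mul_self_nonneg _) (ha i)

theorem feas_mono {G : SimpleGraph V} {T T' : ℝ} (h : T ≤ T') (hT : Feas G T) : Feas G T' := by
  classical
  obtain ⟨X, hX, hd, he⟩ := hT
  refine ⟨fun v w => X v w + if v = w then (T' - T) else 0,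
    hX.add (psd_delta (a := fun _ => T' - T) fun v => by linarith), fun v => ?_, fun v w hvw => ?_⟩
  · simp [hd]
  · simp [he v w hvw, hvw.ne]

theorem feas_card (G : SimpleGraph V) : Feas G (Fintype.card V : ℝ) := by
  classical
  refine ⟨fun v w => (if v = w then (Fintype.card V : ℝ) else 0) - 1, ⟨fun i j => ?_, fun c => ?_⟩,
    fun v => by simp, fun v w h => by simp [h.ne]⟩
  · by_cases h : i = j
    · subst h; rfl
    · show (if i = j then (Fintype.card V : ℝ) else 0) - 1 = (if j = i then (Fintype.card V : ℝ) else 0) - 1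
      rw [if_neg h, if_neg (Ne.symm h)]
  · have e : ∑ i, ∑ j, c i * c j * ((if i = j then (Fintype.card V : ℝ) else 0) - 1)
        = (Fintype.card V : ℝ) * ∑ i, c i ^ 2 - (∑ i, c i) ^ 2 := by
      simp only [mul_sub, Finset.sum_sub_distrib, mul_one]
      congr 1
      · rw [Finset.mul_sum]
        refine Finset.sum_congr rfl fun i _ => ?_
        simp
        ring
      · rw [sq, Finset.sum_mul_sum]
    rw [e]
    have := sq_sum_le_card_mul_sum_sq (s := (Finset.univ : Finset V)) (f := c)
    simp only [Finset.card_univ] at this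
    linarith

theorem Feas.one_le [Nonempty V] {G : SimpleGraph V} {T : ℝ} (h : Feas G T) : 1 ≤ T := by
  classical
  obtain ⟨X, hX, hd, -⟩ := h
  have v : V := Classical.arbitrary V
  have := hX.diag_nonneg v
  rw [hd] at this
  linarith

theorem Feas.two_le {G : SimpleGraph V} {T : ℝ} (h : Feas G T) {v w : V} (hvw : G.Adj v w) :
    2 ≤ T := by
  obtain ⟨X, hX, hd, he⟩ := h
  have := hX.bound v w
  rw [hd, hd, he v w hvw] at this
  norm_num at this
  linarith

theorem exists_least [Nonempty V] (G : SimpleGraph V) : ∃ t, IsLeast {T | Feas G T} t := by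
  classical
  set n : ℝ := (Fintype.card V : ℝ) with hn
  set C : Set (ℝ × (V → V → ℝ)) := {p | PSD p.2 ∧ (∀ v, p.2 v v = p.1 - 1) ∧
    (∀ v w, G.Adj v w → p.2 v w = -1) ∧ 1 ≤ p.1 ∧ p.1 ≤ n} with hC
  have hclosed : IsClosed C := by
    have : C = (Prod.snd ⁻¹' {X : V → V → ℝ | PSD X}) ∩
        ((⋂ v, {p : ℝ × (V → V → ℝ) | p.2 v v = p.1 - 1}) ∩
        ((⋂ v, ⋂ w, {p : ℝ × (V → V → ℝ) | G.Adj v w → p.2 v w = -1}) ∩
        ({p : ℝ × (V → V → ℝ) | 1 ≤ p.1} ∩ {p : ℝ × (V → V → ℝ) | p.1 ≤ n}))) := by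
      ext p
      simp [hC]
    rw [this]
    refine (isClosed_psd.preimage continuous_snd).inter (IsClosed.inter ?_ (IsClosed.inter ?_
      (IsClosed.inter ?_ ?_)))
    · exact isClosed_iInter fun v => isClosed_eq (by fun_prop) (by fun_prop)
    · refine isClosed_iInter fun v => isClosed_iInter fun w => ?_
      by_cases h : G.Adj v w
      · simp only [h, true_imp_iff]
        exact isClosed_eq (by fun_prop) (by fun_prop)
      · simp [h]
    · exact isClosed_le (by fun_prop) (by fun_prop)
    · exact isClosed_le (by fun_prop) (by fun_prop)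
  have hcomp : IsCompact C := by
    refine IsCompact.of_isClosed_subset
      ((isCompact_Icc (a := (1 : ℝ)) (b := n)).prod
        (isCompact_Icc (a := (fun _ _ => -n : V → V → ℝ)) (b := fun _ _ => n))) hclosed ?_
    rintro ⟨T, X⟩ ⟨hX, hd, he, h1, h2⟩
    refine ⟨⟨h1, h2⟩, ?_, ?_⟩
    all_goals
      intro v w
      have hb := hX.bound v w
      rw [hd, hd] at hb
      simp only at hb h1 h2 ⊢
      have := abs_le.1 (show |X v w| ≤ n by linarith)
      first | exact this.1 | exact this.2
  have hne : (Prod.fst '' C).Nonempty := by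
    obtain ⟨X, hX, hd, he⟩ := feas_card G
    have : (1 : ℝ) ≤ n := (feas_card G).one_le
    exact ⟨n, ⟨(n, X), ⟨hX, hd, he, this, le_refl _⟩, rfl⟩⟩
  obtain ⟨t, ⟨⟨⟨t', X⟩, ⟨hX, hd, he, h1, h2⟩, ht⟩, hmin⟩⟩ :=
    (hcomp.image continuous_fst).exists_isLeast hne
  simp only at ht
  subst ht
  refine ⟨t', ⟨X, hX, hd, he⟩, ?_⟩
  rintro T ⟨Y, hY, hYd, hYe⟩
  rcases le_or_gt T n with h | h
  · refine hmin ⟨(T, Y), ⟨hY, hYd, hYe, ?_, h⟩, rfl⟩
    exact Feas.one_le ⟨Y, hY, hYd, hYe⟩
  · exact le_trans h2 h.le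

theorem quad_nonneg {a b : ℝ} (hb : 0 ≤ b)
    (h : ∀ ε : ℝ, 0 < ε → ε ≤ 1 → 0 ≤ ε * a + ε ^ 2 * b) : 0 ≤ a := by
  by_contra hneg
  push Not at hneg
  set ε := min 1 (-a / (b + 1)) with hε
  have hb1 : 0 < b + 1 := by linarith
  have h0 : 0 < ε := lt_min one_pos (div_pos (by linarith) hb1)
  have h1 : ε ≤ 1 := min_le_left _ _
  have h2 : ε * (b + 1) ≤ -a := by
    have : ε ≤ -a / (b + 1) := min_le_right _ _
    rwa [le_div_iff₀ hb1] at this
  have h3 := h ε h0 h1
  have h4 : ε * a + ε ^ 2 * b = ε * (a + ε * b) := by ring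
  rw [h4] at h3
  have h5 : 0 ≤ a + ε * b := by
    by_contra h6
    push Not at h6
    have := mul_neg_of_pos_of_neg h0 h6
    linarith
  nlinarith

/-- Dual certificate for infeasibility. -/
theorem exists_cert (G : SimpleGraph V) {T : ℝ} (hT : ¬ Feas G T) :
    ∃ W : V → V → ℝ, PSD W ∧ (∀ v w, v ≠ w → ¬ G.Adj v w → W v w = 0) ∧
      T * ∑ v, W v v < ∑ v, ∑ w, W v w := by
  classical
  set s : V → V → ℝ := fun v w => if v = w ∨ G.Adj v w then 1 else 0 with hs
  set τ : V → V → ℝ := fun v w => (if v = w then T else 0) - 1 with hτ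
  have s0 : ∀ v w, 0 ≤ s v w := fun v w => by simp only [hs]; split_ifs <;> norm_num
  have ssym : ∀ v w, s v w = s w v := fun v w => by
    simp only [hs]
    by_cases h : v = w ∨ G.Adj v w
    · rw [if_pos h, if_pos (h.imp Eq.symm (fun h => h.symm))]
    · rw [if_neg h, if_neg (fun h' => h (h'.imp Eq.symm (fun h => h.symm)))]
  have τsym : ∀ v w, τ v w = τ w v := fun v w => by
    simp only [hτ]
    by_cases h : v = w
    · subst h; rfl
    · rw [if_neg h, if_neg (Ne.symm h)]
  set φ : (V → V → ℝ) → ℝ := fun X => ∑ v, ∑ w, s v w * (X v w - τ v w) ^ 2 with hφ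
  have φcont : Continuous φ := by
    simp only [hφ]
    fun_prop
  set K : Set (V → V → ℝ) := {X | PSD X ∧ φ X ≤ φ (fun _ _ => 0)} with hK
  have hKclosed : IsClosed K := by
    have : K = {X | PSD X} ∩ {X | φ X ≤ φ (fun _ _ => 0)} := rfl
    rw [this]
    exact isClosed_psd.inter (isClosed_le φcont continuous_const)
  set R : ℝ := |T - 1| + φ (fun _ _ => 0) + 1 with hR
  have φ00 : 0 ≤ φ (fun _ _ => 0) :=
    Finset.sum_nonneg fun v _ => Finset.sum_nonneg fun w _ => mul_nonneg (s0 v w) (sq_nonneg _)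
  have hterm : ∀ X : V → V → ℝ, ∀ v w, s v w * (X v w - τ v w) ^ 2 ≤ φ X := by
    intro X v w
    have h1 : s v w * (X v w - τ v w) ^ 2 ≤ ∑ w, s v w * (X v w - τ v w) ^ 2 :=
      Finset.single_le_sum (f := fun w => s v w * (X v w - τ v w) ^ 2)
        (fun w _ => mul_nonneg (s0 v w) (sq_nonneg _)) (Finset.mem_univ w)
    have h2 : ∑ w, s v w * (X v w - τ v w) ^ 2 ≤ φ X :=
      Finset.single_le_sum (f := fun v => ∑ w, s v w * (X v w - τ v w) ^ 2)
        (fun v _ => Finset.sum_nonneg fun w _ => mul_nonneg (s0 v w) (sq_nonneg _))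
        (Finset.mem_univ v)
    exact h1.trans h2
  have hKcomp : IsCompact K := by
    refine IsCompact.of_isClosed_subset
      (isCompact_Icc (a := (fun _ _ => -R : V → V → ℝ)) (b := fun _ _ => R)) hKclosed ?_
    rintro X ⟨hX, hφX⟩
    have hdiag : ∀ v, X v v ≤ R := by
      intro v
      have h1 := hterm X v v
      have h2 : s v v = 1 := by simp [hs]
      have h3 : τ v v = T - 1 := by simp [hτ]
      rw [h2, h3, one_mul] at h1
      have h4 : (X v v - (T - 1)) ^ 2 ≤ φ (fun _ _ => 0) := h1.trans hφX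
      have h5 : T - 1 ≤ |T - 1| := le_abs_self _
      nlinarith [sq_nonneg (X v v - (T - 1) - 1)]
    have hb : ∀ v w, |X v w| ≤ R := fun v w => by
      have := hX.bound v w
      have h1 := hdiag v
      have h2 := hdiag w
      linarith
    exact ⟨fun v w => (abs_le.1 (hb v w)).1, fun v w => (abs_le.1 (hb v w)).2⟩
  have psd0 : PSD (fun _ _ => (0 : ℝ) : V → V → ℝ) := ⟨fun _ _ => rfl, fun c => by simp⟩
  obtain ⟨X0, ⟨hX0, hX0φ⟩, hmin⟩ := hKcomp.exists_isMinOn ⟨_, psd0, le_refl _⟩ φcont.continuousOn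
  have hmin' : ∀ X, PSD X → φ X0 ≤ φ X := by
    intro X hX
    rcases le_or_gt (φ X) (φ (fun _ _ => 0)) with h | h
    · exact hmin ⟨hX, h⟩
    · exact hX0φ.trans h.le
  set W : V → V → ℝ := fun v w => s v w * (X0 v w - τ v w) with hW
  have hfirst : ∀ X, PSD X → 0 ≤ ∑ v, ∑ w, W v w * X v w := by
    intro X hX
    have h := quad_nonneg (a := 2 * ∑ v, ∑ w, W v w * X v w)
      (b := ∑ v, ∑ w, s v w * (X v w) ^ 2)
      (Finset.sum_nonneg fun v _ => Finset.sum_nonneg fun w _ => mul_nonneg (s0 v w) (sq_nonneg _))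
      (fun ε h0 h1 => by
        have h2 := hmin' _ (hX0.add (hX.smul h0.le))
        have h3 : φ (fun i j => X0 i j + ε * X i j) = φ X0 + (ε * (2 * ∑ v, ∑ w, W v w * X v w)
            + ε ^ 2 * ∑ v, ∑ w, s v w * (X v w) ^ 2) := by
          simp only [hφ, hW, Finset.mul_sum, ← Finset.sum_add_distrib]
          refine Finset.sum_congr rfl fun v _ => Finset.sum_congr rfl fun w _ => ?_
          ring
        rw [h3] at h2
        linarith)
    linarith
  have hX0le : ∑ v, ∑ w, W v w * X0 v w ≤ 0 := by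
    have h := quad_nonneg (a := -2 * ∑ v, ∑ w, W v w * X0 v w)
      (b := ∑ v, ∑ w, s v w * (X0 v w) ^ 2)
      (Finset.sum_nonneg fun v _ => Finset.sum_nonneg fun w _ => mul_nonneg (s0 v w) (sq_nonneg _))
      (fun ε h0 h1 => by
        have h2 := hmin' _ (hX0.smul (a := 1 - ε) (by linarith))
        have h3 : φ (fun i j => (1 - ε) * X0 i j) = φ X0 + (ε * (-2 * ∑ v, ∑ w, W v w * X0 v w)
            + ε ^ 2 * ∑ v, ∑ w, s v w * (X0 v w) ^ 2) := by
          simp only [hφ, hW, Finset.mul_sum, ← Finset.sum_add_distrib]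
          refine Finset.sum_congr rfl fun v _ => Finset.sum_congr rfl fun w _ => ?_
          ring
        rw [h3] at h2
        linarith)
    linarith
  refine ⟨W, ⟨fun v w => ?_, fun c => ?_⟩, fun v w hne hna => ?_, ?_⟩
  · simp only [hW]
    rw [ssym v w, hX0.1 v w, τsym v w]
  · have := hfirst (fun i j => c i * c j)
      (psd_of_factor (K := Unit) (fun _ i => c i) fun i j => by simp)
    refine this.trans (le_of_eq ?_)
    refine Finset.sum_congr rfl fun v _ => Finset.sum_congr rfl fun w _ => ?_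
    ring
  · simp only [hW, hs]
    rw [if_neg (by tauto), zero_mul]
  · have hpos : 0 < φ X0 := by
      have h0 : 0 ≤ φ X0 :=
        Finset.sum_nonneg fun v _ => Finset.sum_nonneg fun w _ => mul_nonneg (s0 v w) (sq_nonneg _)
      rcases h0.lt_or_eq with h | h
      · exact h
      · exfalso
        apply hT
        have hz : ∀ v w, s v w = 1 → X0 v w = τ v w := by
          intro v w h1
          have h2 := hterm X0 v w
          rw [h1, ← h, one_mul] at h2
          have : (X0 v w - τ v w) ^ 2 = 0 := le_antisymm h2 (sq_nonneg _)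
          have := pow_eq_zero_iff (two_ne_zero) |>.1 this
          linarith
        refine ⟨X0, hX0, fun v => ?_, fun v w hvw => ?_⟩
        · rw [hz v v (by simp [hs])]
          simp [hτ]
        · rw [hz v w (by simp [hs, hvw])]
          simp [hτ, hvw.ne]
    have e1 : ∑ v, ∑ w, W v w * X0 v w = φ X0 + ∑ v, ∑ w, W v w * τ v w := by
      simp only [hφ, hW, ← Finset.sum_add_distrib]
      refine Finset.sum_congr rfl fun v _ => Finset.sum_congr rfl fun w _ => ?_
      ring
    have e2 : ∑ v, ∑ w, W v w * τ v w = T * ∑ v, W v v - ∑ v, ∑ w, W v w := by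
      simp only [hτ, mul_sub, Finset.sum_sub_distrib, mul_one]
      congr 1
      rw [Finset.mul_sum]
      refine Finset.sum_congr rfl fun v _ => ?_
      simp
      ring
    linarith

/-- Strong duality with an optimal dual solution. -/
theorem exists_dual [Nonempty V] (G : SimpleGraph V) {t : ℝ} (ht : IsLeast {T | Feas G T} t) :
    ∃ W : V → V → ℝ, PSD W ∧ (∀ v w, v ≠ w → ¬ G.Adj v w → W v w = 0) ∧
      ∑ v, W v v = 1 ∧ ∑ v, ∑ w, W v w = t := by
  classical
  set C : Set (V → V → ℝ) := {W | PSD W ∧ (∀ v w, v ≠ w → ¬ G.Adj v w → W v w = 0) ∧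
      ∑ v, W v v = 1} with hC
  have hclosed : IsClosed C := by
    have : C = {X : V → V → ℝ | PSD X} ∩
        ((⋂ v, ⋂ w, {X : V → V → ℝ | v ≠ w → ¬ G.Adj v w → X v w = 0}) ∩
        {X : V → V → ℝ | ∑ v, X v v = 1}) := by
      ext p
      simp [hC]
    rw [this]
    refine isClosed_psd.inter (IsClosed.inter ?_ ?_)
    · refine isClosed_iInter fun v => isClosed_iInter fun w => ?_
      by_cases h : v ≠ w ∧ ¬ G.Adj v w
      · simp only [h.1, h.2, true_imp_iff, ne_eq, not_false_eq_true]
        exact isClosed_eq (by fun_prop) (by fun_prop)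
      · have : {X : V → V → ℝ | v ≠ w → ¬ G.Adj v w → X v w = 0} = Set.univ := by
          ext X
          simp only [Set.mem_ofPred_eq, Set.mem_univ, iff_true]
          intro h1 h2
          exact absurd ⟨h1, h2⟩ h
        rw [this]
        exact isClosed_univ
    · exact isClosed_eq (by fun_prop) (by fun_prop)
  have hcomp : IsCompact C := by
    refine IsCompact.of_isClosed_subset
      (isCompact_Icc (a := (fun _ _ => -1 : V → V → ℝ)) (b := fun _ _ => 1)) hclosed ?_
    rintro W ⟨hW, hs, ht⟩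
    have hdiag : ∀ v, W v v ≤ 1 := by
      intro v
      rw [← ht]
      exact Finset.single_le_sum (f := fun v => W v v) (fun v _ => hW.diag_nonneg v)
        (Finset.mem_univ v)
    have hb : ∀ v w, |W v w| ≤ 1 := fun v w => by
      have := hW.bound v w
      have h1 := hdiag v
      have h2 := hdiag w
      linarith
    exact ⟨fun v w => (abs_le.1 (hb v w)).1, fun v w => (abs_le.1 (hb v w)).2⟩
  have hne : C.Nonempty := by
    have hcard : (0 : ℝ) < Fintype.card V := by exact_mod_cast Fintype.card_pos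
    refine ⟨fun v w => if v = w then (1 / (Fintype.card V : ℝ)) else 0,
      psd_delta (a := fun _ => 1 / (Fintype.card V : ℝ)) fun v => by positivity,
      fun v w h _ => by simp [h], ?_⟩
    simp
  obtain ⟨W, ⟨hW, hs, htr⟩, hmax⟩ := hcomp.exists_isMaxOn hne
    (f := fun W : V → V → ℝ => ∑ v, ∑ w, W v w) (by fun_prop)
  refine ⟨W, hW, hs, htr, le_antisymm ?_ ?_⟩
  · obtain ⟨X, hX, hd, he⟩ := ht.1
    have h1 := hW.pair hX
    have h2 : ∑ i, ∑ j, W i j * X i j = t * ∑ v, W v v - ∑ v, ∑ w, W v w := by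
      have h3 : ∀ v w, W v w * X v w = W v w * (if v = w then t else 0) - W v w := by
        intro v w
        by_cases h : v = w
        · subst h
          rw [hd]
          simp
          ring
        · by_cases h' : G.Adj v w
          · rw [he v w h', if_neg h]
            ring
          · rw [hs v w h h']
            ring
      simp only [h3, Finset.sum_sub_distrib]
      congr 1
      rw [Finset.mul_sum]
      refine Finset.sum_congr rfl fun v _ => ?_
      simp
      ring
    rw [h2, htr] at h1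
    linarith
  · by_contra hlt
    push Not at hlt
    set m := ∑ v, ∑ w, W v w with hm
    have hnf : ¬ Feas G ((m + t) / 2) := fun h => by
      have := ht.2 h
      linarith
    obtain ⟨W', hW', hs', hlt'⟩ := exists_cert G hnf
    have htr0 : 0 ≤ ∑ v, W' v v := Finset.sum_nonneg fun v _ => hW'.diag_nonneg v
    have htr1 : 0 < ∑ v, W' v v := by
      rcases htr0.lt_or_eq with h | h
      · exact h
      · exfalso
        have hz : ∀ v ∈ (Finset.univ : Finset V), W' v v = 0 :=
          (Finset.sum_eq_zero_iff_of_nonneg fun v _ => hW'.diag_nonneg v).1 h.symm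
        have : ∑ v, ∑ w, W' v w = 0 :=
          Finset.sum_eq_zero fun v _ => Finset.sum_eq_zero fun w _ =>
            hW'.zero_row (hz w (Finset.mem_univ w)) v
        rw [this, ← h] at hlt'
        linarith
    set a := ∑ v, W' v v with ha
    have hmem : (fun v w => a⁻¹ * W' v w) ∈ C := by
      refine ⟨hW'.smul (by positivity), fun v w h h' => by simp [hs' v w h h'], ?_⟩
      rw [← Finset.mul_sum]
      exact inv_mul_cancel₀ htr1.ne'
    have h1 : ∑ v, ∑ w, a⁻¹ * W' v w ≤ m := hmax hmem
    simp only [← Finset.mul_sum] at h1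
    rw [inv_mul_le_iff₀ htr1] at h1
    nlinarith

end Pool.Agent.R93.Theta
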